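import Mathlib
import Pool.Agent.N909.TF.Lim

set_option autoImplicit false

/-! # The law of large numbers along random sets of times and of indices

The integers are decided one after the other.  A rule selects, at each time `k`, whether the decision on
`k + 1` is counted; it may depend on all earlier decisions.  The number of counted and chosen integers
is close to the sum of the densities over the counted ones. -/

open MeasureTheory Filter Set
open scoped ENNReal Topology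

namespace Pool.Agent.N951.TF

open Pool.Agent.R528.RM Pool.Agent.N909.TF

variable {Ω : Type} {m0 : MeasurableSpace Ω} {μ : Measure Ω} [IsProbabilityMeasure μ]
  {ℱ : Filtration ℕ m0} {A : ℕ → Set Ω}

open Classical in
/-- the weights of a rule -/
noncomputable def wG (A : ℕ → Set Ω) (G : ℕ → Finset ℕ → Prop) (k : ℕ) (ω : Ω) : ℝ :=
  if G k (ch A k ω) then 1 else 0

lemma wG_meas (hA : ∀ n, MeasurableSet[ℱ n] (A n)) (G : ℕ → Finset ℕ → Prop) (k : ℕ) :
    StronglyMeasurable[ℱ k] (wG A G k) := by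
  classical
  have h1 := meas_count (m := ℱ k) (fun ω => G k (ch A k ω)) (fun x => Phi_meas hA k (G k) x)
    (fun p _ => if p then (1 : ℝ) else 0) (fun _ => measurable_const)
  exact h1.stronglyMeasurable

lemma wG_01 (G : ℕ → Finset ℕ → Prop) (k : ℕ) (ω : Ω) : 0 ≤ wG A G k ω ∧ wG A G k ω ≤ 1 := by
  unfold wG
  split_ifs <;> norm_num

/-- **the law of large numbers along a rule** -/
theorem stop_law (hA : ∀ n, MeasurableSet[ℱ n] (A n)) (ρ : ℕ → ℝ) (hρ : ∀ n, 0 ≤ ρ n ∧ ρ n ≤ 1)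
    (hd : ∀ᵐ ω ∂μ, ∀ ε : ℝ, 0 < ε → ∀ᶠ n : ℕ in atTop, |dens μ ℱ A n ω - ρ (n + 1)| ≤ ε * ρ (n + 1))
    (G : ℕ → ℕ → Finset ℕ → Prop) (M : ℕ → ℕ) :
    ∀ᵐ ω ∂μ, ∀ η : ℝ, 0 < η → ∃ C : ℝ, 0 ≤ C ∧ ∀ᶠ n : ℕ in atTop,
      |SI A (wG A (G n)) (M n) ω - ∑ k ∈ Finset.range (M n), wG A (G n) k ω * ρ (k + 1)| ≤
        η * ∑ k ∈ Finset.range (M n), wG A (G n) k ω * ρ (k + 1) + C * Real.log n + C := by
  classical
  have h1 := bc_law (μ := μ) hA (fun n => wG A (G n)) M (fun n k => wG_meas hA (G n) k)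
    (fun n k ω => wG_01 (G n) k ω)
  have h01 : ∀ᵐ ω ∂μ, ∀ n, 0 ≤ dens μ ℱ A n ω ∧ dens μ ℱ A n ω ≤ 1 := ae_all_iff.2 fun n => dens01 hA n
  filter_upwards [h1, h01, hd] with ω hω hω01 hωd δ hδ
  set η : ℝ := min (δ / 3) 1 with hη
  have hη0 : 0 < η := by rw [hη]; positivity
  have hη1 : η ≤ 1 := min_le_right _ _
  have hηδ : 3 * η ≤ δ := by
    have : η ≤ δ / 3 := min_le_left _ _
    linarith
  obtain ⟨C, hC, hlaw⟩ := hω η hη0
  obtain ⟨N, hN⟩ := eventually_atTop.1 (hωd η hη0)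
  refine ⟨C + 2 * N, by positivity, ?_⟩
  filter_upwards [hlaw] with n g
  set w : ℕ → Ω → ℝ := wG A (G n) with hw
  have hw01 : ∀ m, 0 ≤ w m ω ∧ w m ω ≤ 1 := fun m => wG_01 (G n) m ω
  set R : ℝ := ∑ m ∈ Finset.range (M n), w m ω * ρ (m + 1) with hR
  have hR0 : 0 ≤ R := Finset.sum_nonneg fun m _ => mul_nonneg (hw01 m).1 (hρ _).1
  have r3 : |SD μ ℱ A w (M n) ω - R| ≤ N + η * R := by
    rw [hR]
    unfold SD
    rw [← Finset.sum_sub_distrib]
    refine (Finset.abs_sum_le_sum_abs _ _).trans ?_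
    have s1 : ∀ m ∈ Finset.range (M n), |w m ω * dens μ ℱ A m ω - w m ω * ρ (m + 1)| ≤
        (if m < N then 1 else 0) + η * (w m ω * ρ (m + 1)) := by
      intro m _
      rw [← mul_sub, abs_mul, abs_of_nonneg (hw01 m).1]
      by_cases hm : m < N
      · rw [if_pos hm]
        have t1 : |dens μ ℱ A m ω - ρ (m + 1)| ≤ 1 := by
          rw [abs_le]
          have := hω01 m
          have := hρ (m + 1)
          constructor <;> linarith
        have t2 : w m ω * |dens μ ℱ A m ω - ρ (m + 1)| ≤ 1 := mul_le_one₀ (hw01 m).2 (abs_nonneg _) t1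
        have t3 : 0 ≤ η * (w m ω * ρ (m + 1)) := mul_nonneg hη0.le (mul_nonneg (hw01 m).1 (hρ _).1)
        linarith
      · rw [if_neg hm, zero_add]
        calc w m ω * |dens μ ℱ A m ω - ρ (m + 1)| ≤ w m ω * (η * ρ (m + 1)) :=
              mul_le_mul_of_nonneg_left (hN m (not_lt.1 hm)) (hw01 m).1
          _ = _ := by ring
    refine (Finset.sum_le_sum s1).trans ?_
    rw [Finset.sum_add_distrib, ← Finset.mul_sum]
    refine add_le_add ?_ le_rfl
    rw [Finset.sum_ite, Finset.sum_const_zero, add_zero, Finset.sum_const, nsmul_eq_mul, mul_one]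
    have : ((Finset.range (M n)).filter (fun m => m < N)).card ≤ N := by
      calc _ ≤ (Finset.range N).card := by
            apply Finset.card_le_card
            intro m hm
            exact Finset.mem_range.2 (Finset.mem_filter.1 hm).2
        _ = N := Finset.card_range N
    exact_mod_cast this
  have a3 := abs_le.1 r3
  set S := SD μ ℱ A w (M n) ω
  set X := SI A w (M n) ω
  have hN0 : (0 : ℝ) ≤ N := Nat.cast_nonneg N
  have hl0 : 0 ≤ Real.log n := Real.log_natCast_nonneg n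
  have u1 : S ≤ (1 + η) * R + N := by linarith
  have u5 : η * S ≤ η * ((1 + η) * R + N) := mul_le_mul_of_nonneg_left u1 hη0.le
  have u6 : η * (η * R) ≤ 1 * (η * R) := mul_le_mul_of_nonneg_right hη1 (by positivity)
  have u7 : η * N ≤ 1 * N := mul_le_mul_of_nonneg_right hη1 hN0
  have u8 : 3 * η * R ≤ δ * R := mul_le_mul_of_nonneg_right hηδ hR0
  have u9 : 0 ≤ 2 * (N : ℝ) * Real.log n := by positivity
  have g1 := g.1
  have g2 := g.2
  rw [abs_le]
  constructor
  · linarith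
  · linarith

/-! ## indices -/

/-- `x` is the element number `j` of `S` -/
def isP (S : Set ℕ) (j x : ℕ) : Prop := x ∈ S ∧ (S ∩ Set.Iio x).ncard + 1 = j

lemma isP_iff {S : Set ℕ} (hS : S.Infinite) {j x : ℕ} : isP S j x ↔ 0 < j ∧ pk S j = x := by
  classical
  have hcount : ∀ x, Nat.count (· ∈ S) x = (S ∩ Set.Iio x).ncard := by
    intro x
    rw [Nat.count_eq_card_filter_range, ← Set.ncard_coe_finset]
    congr 1
    ext t
    rw [Finset.mem_coe, Finset.mem_filter, Finset.mem_range, mem_inter_iff, mem_Iio]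
    exact and_comm
  unfold isP
  constructor
  · rintro ⟨h1, h2⟩
    refine ⟨by omega, ?_⟩
    have h3 := Nat.nth_count (p := (· ∈ S)) h1
    unfold pk
    rw [hcount x] at h3
    rw [← h2, Nat.add_sub_cancel]
    exact h3
  · rintro ⟨h1, rfl⟩
    refine ⟨pk_mem hS j, ?_⟩
    rw [← hcount, count_pk hS]
    omega

lemma isP_ch {ω : Ω} {k j x : ℕ} : isP (ch A k ω : Set ℕ) j x ↔ x ≤ k ∧ isP {t | ω ∈ A t} j x := by
  have key : x ≤ k → ((ch A k ω : Set ℕ) ∩ Set.Iio x) = {t | ω ∈ A t} ∩ Set.Iio x := by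
    intro h
    ext t
    rw [mem_inter_iff, mem_inter_iff, Finset.mem_coe, mem_ch, mem_Iio]
    constructor
    · rintro ⟨⟨_, h2⟩, h3⟩
      exact ⟨h2, h3⟩
    · rintro ⟨h2, h3⟩
      exact ⟨⟨by omega, h2⟩, h3⟩
  unfold isP
  constructor
  · rintro ⟨h1, h2⟩
    rw [Finset.mem_coe, mem_ch] at h1
    rw [key h1.1] at h2
    exact ⟨h1.1, h1.2, h2⟩
  · rintro ⟨h1, h2, h3⟩
    rw [← key h1] at h3
    refine ⟨?_, h3⟩
    rw [Finset.mem_coe, mem_ch]
    exact ⟨h1, h2⟩

open Classical in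
/-- the indices selected by a rule; the rule may use all the decisions on integers up to `P_j + 1` -/
noncomputable def JJ (A : ℕ → Set Ω) (rule : ℕ → ℕ → Finset ℕ → Prop) (n : ℕ) (ω : Ω) : Finset ℕ :=
  (Finset.Icc 1 (n ^ 2)).filter (fun j => rule n j (ch A (pk {t | ω ∈ A t} j + 1) ω))

open Classical in
/-- the selected indices for which `P_j + 2` is chosen -/
noncomputable def JP (A : ℕ → Set Ω) (rule : ℕ → ℕ → Finset ℕ → Prop) (n : ℕ) (ω : Ω) : Finset ℕ :=
  (JJ A rule n ω).filter (fun j => ω ∈ A (pk {t | ω ∈ A t} j + 2))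

/-- the rule for the times -/
def TG (rule : ℕ → ℕ → Finset ℕ → Prop) (n k : ℕ) (s : Finset ℕ) : Prop :=
  ∃ j x, k = x + 1 ∧ isP (s : Set ℕ) j x ∧ j ≤ n ^ 2 ∧ rule n j s

lemma mem_JJ {rule : ℕ → ℕ → Finset ℕ → Prop} {n j : ℕ} {ω : Ω} : j ∈ JJ A rule n ω ↔
    (0 < j ∧ j ≤ n ^ 2) ∧ rule n j (ch A (pk {t | ω ∈ A t} j + 1) ω) := by
  classical
  unfold JJ
  rw [Finset.mem_filter, Finset.mem_Icc, Nat.succ_le_iff]

lemma mem_JP {rule : ℕ → ℕ → Finset ℕ → Prop} {n j : ℕ} {ω : Ω} : j ∈ JP A rule n ω ↔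
    j ∈ JJ A rule n ω ∧ ω ∈ A (pk {t | ω ∈ A t} j + 2) := by
  classical
  unfold JP
  rw [Finset.mem_filter]

lemma TG_iff {rule : ℕ → ℕ → Finset ℕ → Prop} {n k : ℕ} {ω : Ω} (hS : {t | ω ∈ A t}.Infinite) :
    TG rule n k (ch A k ω) ↔ ∃ j ∈ JJ A rule n ω, pk {t | ω ∈ A t} j + 1 = k := by
  constructor
  · rintro ⟨j, x, rfl, h1, h2, h3⟩
    obtain ⟨_, h4⟩ := isP_ch.1 h1
    obtain ⟨h5, rfl⟩ := (isP_iff hS).1 h4
    exact ⟨j, mem_JJ.2 ⟨⟨h5, h2⟩, h3⟩, rfl⟩
  · rintro ⟨j, hj, rfl⟩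
    obtain ⟨⟨h1, h2⟩, h3⟩ := mem_JJ.1 hj
    exact ⟨j, _, rfl, isP_ch.2 ⟨Nat.le_succ _, (isP_iff hS).2 ⟨h1, rfl⟩⟩, h2, h3⟩

lemma sum_TG {rule : ℕ → ℕ → Finset ℕ → Prop} {n M : ℕ} {ω : Ω} (hS : {t | ω ∈ A t}.Infinite)
    (hM : ∀ j ∈ JJ A rule n ω, pk {t | ω ∈ A t} j + 1 < M) (g : ℕ → ℝ) :
    ∑ k ∈ Finset.range M, wG A (TG rule n) k ω * g (k + 1) =
      ∑ j ∈ JJ A rule n ω, g (pk {t | ω ∈ A t} j + 2) := by
  classical
  have h1 : ∑ k ∈ Finset.range M, wG A (TG rule n) k ω * g (k + 1) =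
      ∑ k ∈ (Finset.range M).filter (fun k => TG rule n k (ch A k ω)), g (k + 1) := by
    rw [Finset.sum_filter]
    refine Finset.sum_congr rfl fun k _ => ?_
    unfold wG
    by_cases h : TG rule n k (ch A k ω)
    · rw [if_pos h, if_pos h, one_mul]
    · rw [if_neg h, if_neg h, zero_mul]
  have h2 : (Finset.range M).filter (fun k => TG rule n k (ch A k ω)) =
      (JJ A rule n ω).image (fun j => pk {t | ω ∈ A t} j + 1) := by
    ext k
    rw [Finset.mem_filter, Finset.mem_range, Finset.mem_image, TG_iff hS]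
    constructor
    · exact fun h => h.2
    · rintro ⟨j, hj, rfl⟩
      exact ⟨hM j hj, j, hj, rfl⟩
  rw [h1, h2, Finset.sum_image]
  intro a ha b hb hab
  have ha' := (mem_JJ.1 (Finset.mem_coe.1 ha)).1.1
  have hb' := (mem_JJ.1 (Finset.mem_coe.1 hb)).1.1
  exact pk_inj hS ha' hb' (by simpa using hab)

/-- a bound for all elements -/
lemma pk_up_all {S : Set ℕ} (h : PNT S) (ε : ℝ) (hε : 0 < ε) :
    ∃ C : ℝ, 0 ≤ C ∧ ∀ k : ℕ, (pk S k : ℝ) ≤ (k : ℝ) ^ (1 + ε) + C := by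
  obtain ⟨K, hK⟩ := eventually_atTop.1 (pk_up h ε hε)
  refine ⟨∑ k ∈ Finset.range K, (pk S k : ℝ), Finset.sum_nonneg fun _ _ => Nat.cast_nonneg _, fun k => ?_⟩
  have h0 : 0 ≤ (k : ℝ) ^ (1 + ε) := Real.rpow_nonneg (Nat.cast_nonneg k) _
  by_cases hk : K ≤ k
  · have h1 := hK k hk
    have h2 : 0 ≤ ∑ k ∈ Finset.range K, (pk S k : ℝ) := Finset.sum_nonneg fun _ _ => Nat.cast_nonneg _
    linarith
  · push Not at hk
    have h1 := Finset.single_le_sum (f := fun k => (pk S k : ℝ)) (fun _ _ => Nat.cast_nonneg _) (Finset.mem_range.2 hk)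
    have h2 : (pk S k : ℝ) ≤ ∑ k ∈ Finset.range K, (pk S k : ℝ) := h1
    linarith

lemma rho_one {t : ℕ} : rhoW 1 t = min 1 (1 / Real.log t) := by
  unfold rhoW
  rw [if_pos (Nat.coprime_one_right t), Nat.totient_one, Nat.cast_one, div_one]

/-- the sum of the densities -/
lemma sum_est {S : Set ℕ} (hS : PNT S) (δ : ℝ) (hδ : 0 < δ) : ∃ d : ℝ, 0 < d ∧ d < 1 ∧ ∀ᶠ n : ℕ in atTop,
    ∀ J : Finset ℕ, (∀ j ∈ J, (j : ℝ) ≤ (n : ℝ) ^ (1 + d)) →
      (1 - δ) * (J.card / Real.log n) ≤ ∑ j ∈ J, rhoW 1 (pk S j + 2) ∧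
      ∑ j ∈ J, rhoW 1 (pk S j + 2) ≤ (1 + δ) * (J.card / Real.log n) + ((n : ℝ) ^ (1 - d) + 1) := by
  classical
  have hinf := infinite_of_pnt hS
  set d : ℝ := min (δ / 8) (1 / 8) with hd
  have hd0 : 0 < d := by rw [hd]; positivity
  have hd1 : d ≤ 1 / 8 := min_le_right _ _
  have hdδ : 8 * d ≤ δ := by
    have : d ≤ δ / 8 := min_le_left _ _
    linarith
  obtain ⟨C, hC, hup⟩ := pk_up_all hS d hd0
  refine ⟨d, hd0, by linarith, ?_⟩
  have hlog := (Real.tendsto_log_atTop.comp tendsto_natCast_atTop_atTop).eventually_ge_atTop (1 : ℝ)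
  filter_upwards [hlog, pow_beat ((1 + d) * (1 + d)) (1 + 4 * d) (C + 2) (by nlinarith) (by linarith),
    eventually_gt_atTop 1] with n g1 g2 g3 J hJ
  have hn : (1 : ℝ) < n := by exact_mod_cast g3
  have hn0 : (0 : ℝ) < n := by linarith
  have g1' : 1 ≤ Real.log n := g1
  have hL : 0 < Real.log n := by linarith
  constructor
  · have hterm : ∀ j ∈ J, (1 - δ) / Real.log n ≤ rhoW 1 (pk S j + 2) := by
      intro j hj
      have h1 : ((pk S j + 2 : ℕ) : ℝ) ≤ (n : ℝ) ^ (1 + 4 * d) := by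
        push_cast
        have h2 := hup j
        have h3 : (j : ℝ) ^ (1 + d) ≤ (n : ℝ) ^ ((1 + d) * (1 + d)) := by
          rw [Real.rpow_mul hn0.le]
          exact Real.rpow_le_rpow (Nat.cast_nonneg j) (hJ j hj) (by linarith)
        have h4 : (n : ℝ) ^ ((1 + d) * (1 + d)) ≤ (C + 2) * (n : ℝ) ^ ((1 + d) * (1 + d)) := by
          have : 0 < (n : ℝ) ^ ((1 + d) * (1 + d)) := Real.rpow_pos_of_pos hn0 _
          nlinarith
        linarith
      have h2 : (2 : ℝ) ≤ ((pk S j + 2 : ℕ) : ℝ) := by push_cast; linarith [(Nat.cast_nonneg (pk S j) : (0:ℝ) ≤ pk S j)]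
      have h3 : 0 < Real.log ((pk S j + 2 : ℕ) : ℝ) := Real.log_pos (by linarith)
      have h4 : Real.log ((pk S j + 2 : ℕ) : ℝ) ≤ (1 + 4 * d) * Real.log n := by
        rw [← Real.log_rpow hn0]
        exact Real.log_le_log (by linarith) h1
      rw [rho_one]
      refine le_min ?_ ?_
      · rw [div_le_one hL]
        linarith
      · rw [div_le_div_iff₀ hL h3]
        by_cases hδ1 : δ < 1
        · have h5 : (1 - δ) * Real.log ((pk S j + 2 : ℕ) : ℝ) ≤ (1 - δ) * ((1 + 4 * d) * Real.log n) :=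
            mul_le_mul_of_nonneg_left h4 (by linarith)
          have h6 : (1 - δ) * (1 + 4 * d) ≤ 1 := by nlinarith
          have h7 : (1 - δ) * (1 + 4 * d) * Real.log n ≤ 1 * Real.log n := mul_le_mul_of_nonneg_right h6 hL.le
          linarith
        · push Not at hδ1
          have : (1 - δ) * Real.log ((pk S j + 2 : ℕ) : ℝ) ≤ 0 := mul_nonpos_of_nonpos_of_nonneg (by linarith) h3.le
          linarith
    have h1 := Finset.card_nsmul_le_sum J _ _ hterm
    rw [nsmul_eq_mul] at h1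
    calc (1 - δ) * (J.card / Real.log n) = J.card * ((1 - δ) / Real.log n) := by ring
      _ ≤ _ := h1
  · have hterm : ∀ j ∈ J, rhoW 1 (pk S j + 2) ≤ (1 + δ) / Real.log n + (if (j : ℝ) < (n : ℝ) ^ (1 - d) then 1 else 0) := by
      intro j hj
      have hnn : 0 ≤ (1 + δ) / Real.log n := by positivity
      by_cases h : (j : ℝ) < (n : ℝ) ^ (1 - d)
      · rw [if_pos h]
        have := rhoW_le 1 (pk S j + 2)
        linarith
      · rw [if_neg h, add_zero]
        push Not at h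
        have h1 : (n : ℝ) ^ (1 - d) ≤ ((pk S j + 2 : ℕ) : ℝ) := by
          refine h.trans ?_
          have := pk_ge hinf j
          exact_mod_cast (by omega : j ≤ pk S j + 2)
        have hp : 0 < (n : ℝ) ^ (1 - d) := Real.rpow_pos_of_pos hn0 _
        have h2 : (1 - d) * Real.log n ≤ Real.log ((pk S j + 2 : ℕ) : ℝ) := by
          rw [← Real.log_rpow hn0]
          exact Real.log_le_log hp h1
        have h3 : 0 < (1 - d) * Real.log n := mul_pos (by linarith) hL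
        rw [rho_one]
        refine (min_le_right _ _).trans ?_
        rw [div_le_div_iff₀ (by linarith) hL]
        have h4 : (1 + δ) * ((1 - d) * Real.log n) ≤ (1 + δ) * Real.log ((pk S j + 2 : ℕ) : ℝ) :=
          mul_le_mul_of_nonneg_left h2 (by linarith)
        have h5 : 1 ≤ (1 + δ) * (1 - d) := by nlinarith
        have h6 : 1 * Real.log n ≤ (1 + δ) * (1 - d) * Real.log n := mul_le_mul_of_nonneg_right h5 hL.le
        linarith
    refine (Finset.sum_le_sum hterm).trans ?_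
    rw [Finset.sum_add_distrib, Finset.sum_const, nsmul_eq_mul]
    refine add_le_add (le_of_eq (by ring)) ?_
    rw [Finset.sum_ite, Finset.sum_const_zero, add_zero, Finset.sum_const, nsmul_eq_mul, mul_one]
    have hp : 0 ≤ (n : ℝ) ^ (1 - d) := Real.rpow_nonneg hn0.le _
    have h1 : (J.filter (fun j : ℕ => (j : ℝ) < (n : ℝ) ^ (1 - d))).card ≤ ⌊(n : ℝ) ^ (1 - d)⌋₊ + 1 := by
      rw [← Finset.card_range (⌊(n : ℝ) ^ (1 - d)⌋₊ + 1)]
      apply Finset.card_le_card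
      intro j hj
      rw [Finset.mem_filter] at hj
      rw [Finset.mem_range]
      have := (Nat.le_floor_iff hp).2 hj.2.le
      omega
    calc ((J.filter (fun j : ℕ => (j : ℝ) < (n : ℝ) ^ (1 - d))).card : ℝ) ≤ (⌊(n : ℝ) ^ (1 - d)⌋₊ + 1 : ℕ) := by
          exact_mod_cast h1
      _ = (⌊(n : ℝ) ^ (1 - d)⌋₊ : ℝ) + 1 := by push_cast; ring
      _ ≤ _ := by linarith [Nat.floor_le hp]

/-- **the law of large numbers for rules on indices**: if the selected indices are at most `n ^ (1 + o(1))`,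
then the number of selected `j` with `P_j + 2` chosen is `#J / log n`, up to small errors -/
theorem index_law (hA : ∀ n, MeasurableSet[ℱ n] (A n))
    (hd : ∀ᵐ ω ∂μ, Tendsto (fun n : ℕ => dens μ ℱ A n ω * Real.log n) atTop (𝓝 1))
    (rule : ℕ → ℕ → Finset ℕ → Prop)
    (hJ : ∀ᵐ ω ∂μ, ∀ d : ℝ, 0 < d → ∀ᶠ n : ℕ in atTop, ∀ j ∈ JJ A rule n ω, (j : ℝ) ≤ (n : ℝ) ^ (1 + d)) :
    ∀ᵐ ω ∂μ, ∀ δ : ℝ, 0 < δ → ∀ᶠ n : ℕ in atTop,
      |((JP A rule n ω).card : ℝ) - (JJ A rule n ω).card / Real.log n| ≤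
        δ * ((JJ A rule n ω).card / Real.log n) + δ * (n / Real.log n ^ 3) := by
  classical
  have h1 := stop_law (μ := μ) hA (rhoW 1) (fun n => ⟨rhoW_nonneg 1 n, rhoW_le 1 n⟩)
    (dens_profile hA 1 one_pos (fun n hn => absurd (Nat.coprime_one_right n) hn) (seq_sieved hd))
    (fun n => TG rule n) (fun n => n ^ 3)
  filter_upwards [h1, hJ, pnt_ae (μ := μ) hA hd] with ω hω hJω hS δ hδ
  have hinf := infinite_of_pnt hS
  set S : Set ℕ := {t | ω ∈ A t} with hSdef
  set η : ℝ := min (δ / 4) (1 / 4) with hη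
  have hη0 : 0 < η := by rw [hη]; positivity
  have hη1 : η ≤ 1 / 4 := min_le_right _ _
  have hηδ : 4 * η ≤ δ := by
    have : η ≤ δ / 4 := min_le_left _ _
    linarith
  obtain ⟨C, hC, hlaw⟩ := hω η hη0
  obtain ⟨d, hd0, hd1, hest⟩ := sum_est hS η hη0
  obtain ⟨C', hC', hup⟩ := pk_up_all hS (1 / 4) (by norm_num)
  have hlogn := (pow_log 1 (1 - d) one_pos (by linarith) 1).eventually_ge_atTop 1
  have herr := (err_tendsto (2 + C) (1 - d) (by linarith) 3).eventually (gt_mem_nhds hδ)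
  filter_upwards [hlaw, hest, hJω d hd0, hlogn, herr,
    pow_beat (5 / 2) 3 (C' + 2) (by norm_num) (by norm_num), eventually_gt_atTop 1] with n g1 g2 g3 g4 g5 g6 g7
  have hn : (1 : ℝ) < n := by exact_mod_cast g7
  have hn0 : (0 : ℝ) < n := by linarith
  have hL : 0 < Real.log n := Real.log_pos hn
  have hM : ∀ j ∈ JJ A rule n ω, pk S j + 1 < n ^ 3 := by
    intro j hj
    have h2 := (mem_JJ.1 hj).1.2
    have h3 : (j : ℝ) ≤ (n : ℝ) ^ (2 : ℝ) := by
      rw [Real.rpow_two]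
      exact_mod_cast h2
    have h4 : (j : ℝ) ^ (1 + 1 / 4 : ℝ) ≤ (n : ℝ) ^ (5 / 2 : ℝ) := by
      calc (j : ℝ) ^ (1 + 1 / 4 : ℝ) ≤ ((n : ℝ) ^ (2 : ℝ)) ^ (1 + 1 / 4 : ℝ) :=
            Real.rpow_le_rpow (Nat.cast_nonneg j) h3 (by norm_num)
        _ = (n : ℝ) ^ (5 / 2 : ℝ) := by
            rw [← Real.rpow_mul hn0.le]
            norm_num
    have h5 := hup j
    have h6 : (n : ℝ) ^ (3 : ℝ) = (n : ℝ) ^ 3 := by
      rw [← Real.rpow_natCast]
      norm_num
    rw [h6] at g6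
    have hp : 0 < (n : ℝ) ^ (5 / 2 : ℝ) := Real.rpow_pos_of_pos hn0 _
    have h7 : (pk S j : ℝ) + 1 < (n : ℝ) ^ 3 := by nlinarith
    exact_mod_cast h7
  have e1 := sum_TG (rule := rule) hinf hM (fun t => rhoW 1 t)
  have e2 := sum_TG (rule := rule) hinf hM (fun t => (A t).indicator (fun _ => (1 : ℝ)) ω)
  have e3 : SI A (wG A (TG rule n)) (n ^ 3) ω = (JP A rule n ω).card := by
    unfold SI
    rw [e2]
    unfold JP
    rw [Finset.card_filter, Nat.cast_sum]
    refine Finset.sum_congr rfl fun j _ => ?_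
    by_cases h : ω ∈ A (pk S j + 2)
    · rw [indicator_of_mem h, if_pos h, Nat.cast_one]
    · rw [indicator_of_notMem h, if_neg h, Nat.cast_zero]
  rw [e3, e1] at g1
  obtain ⟨k1, k2⟩ := g2 (JJ A rule n ω) g3
  set R := ∑ j ∈ JJ A rule n ω, rhoW 1 (pk S j + 2)
  set y : ℝ := (JJ A rule n ω).card / Real.log n with hy
  have hy0 : 0 ≤ y := by positivity
  have hp : 0 < (n : ℝ) ^ (1 - d) := Real.rpow_pos_of_pos hn0 _
  rw [pow_one, one_mul, le_div_iff₀ hL, one_mul] at g4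
  have g5' : (2 + C) * (n : ℝ) ^ (1 - d) + (2 + C) ≤ δ * (n / Real.log n ^ 3) := by
    rw [mul_div_assoc', le_div_iff₀ (by positivity)]
    rw [div_lt_iff₀ hn0] at g5
    exact g5.le
  have k3 := abs_le.1 g1
  have q1 : η * R ≤ η * ((1 + η) * y + ((n : ℝ) ^ (1 - d) + 1)) := mul_le_mul_of_nonneg_left k2 hη0.le
  have q2 : η * (η * y) ≤ 1 / 4 * (η * y) := mul_le_mul_of_nonneg_right hη1 (by positivity)
  have q3 : 4 * η * y ≤ δ * y := mul_le_mul_of_nonneg_right hηδ hy0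
  have q4 : η * ((n : ℝ) ^ (1 - d) + 1) ≤ 1 / 4 * ((n : ℝ) ^ (1 - d) + 1) :=
    mul_le_mul_of_nonneg_right hη1 (by positivity)
  have q5 : C * Real.log n ≤ C * (n : ℝ) ^ (1 - d) := mul_le_mul_of_nonneg_left g4 hC
  have q6 : 0 ≤ η * y := by positivity
  rw [abs_le]
  constructor
  · nlinarith
  · nlinarith

/-- transfer of limits -/
lemma tr {X J : ℕ → ℝ} (h : ∀ δ : ℝ, 0 < δ → ∀ᶠ n : ℕ in atTop,
      |X n - J n / Real.log n| ≤ δ * (J n / Real.log n) + δ * (n / Real.log n ^ 3))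
    (i : ℕ) (hi : i ≤ 2) (c : ℝ) (hJ : Tendsto (fun n : ℕ => J n * Real.log n ^ i / n) atTop (𝓝 c)) :
    Tendsto (fun n : ℕ => X n * Real.log n ^ (i + 1) / n) atTop (𝓝 c) := by
  have h1 : Tendsto (fun n : ℕ => X n * Real.log n ^ (i + 1) / n - J n * Real.log n ^ i / n) atTop (𝓝 0) := by
    rw [Metric.tendsto_nhds]
    intro ε hε
    have h2 := hJ.eventually (gt_mem_nhds (show c < |c| + 1 by linarith [le_abs_self c]))
    have hlog := (Real.tendsto_log_atTop.comp tendsto_natCast_atTop_atTop).eventually_ge_atTop (1 : ℝ)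
    filter_upwards [h (ε / (2 * (|c| + 2))) (by positivity), h2, hlog, eventually_gt_atTop 1] with n g1 g2 g3 g4
    have hn : (1 : ℝ) < n := by exact_mod_cast g4
    have hn0 : (0 : ℝ) < n := by linarith
    have g3' : 1 ≤ Real.log n := g3
    have hL : 0 < Real.log n := by linarith
    rw [dist_zero_right, Real.norm_eq_abs]
    have e1 : X n * Real.log n ^ (i + 1) / n - J n * Real.log n ^ i / n =
        (X n - J n / Real.log n) * (Real.log n ^ (i + 1) / n) := by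
      rw [pow_succ]
      field_simp
    rw [e1, abs_mul, abs_of_pos (show 0 < Real.log n ^ (i + 1) / n by positivity)]
    set δ : ℝ := ε / (2 * (|c| + 2)) with hδ
    have hδ0 : 0 < δ := by rw [hδ]; positivity
    calc |X n - J n / Real.log n| * (Real.log n ^ (i + 1) / n)
        ≤ (δ * (J n / Real.log n) + δ * (n / Real.log n ^ 3)) * (Real.log n ^ (i + 1) / n) :=
          mul_le_mul_of_nonneg_right g1 (by positivity)
      _ = δ * (J n * Real.log n ^ i / n) + δ * (Real.log n ^ (i + 1) / Real.log n ^ 3) := by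
          field_simp
          ring
      _ ≤ δ * (|c| + 1) + δ * 1 := by
          refine add_le_add (mul_le_mul_of_nonneg_left g2.le hδ0.le) (mul_le_mul_of_nonneg_left ?_ hδ0.le)
          rw [div_le_one (by positivity)]
          exact pow_le_pow_right₀ g3' (by omega)
      _ = ε / 2 := by
          rw [hδ]
          field_simp
          ring
      _ < ε := by linarith
  have h2 := h1.add hJ
  rw [zero_add] at h2
  exact h2.congr fun n => by ring

end Pool.Agent.N951.TF
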